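import Pool.Agent.Helper5.UN.Goals

/-! Hermite reduction of positive definite quadratic forms, in the weak form with a constant. -/

open Matrix Finset

namespace Pool.Agent.Helper65.UN

/-- The value of the quadratic form. -/
def qf {n : ℕ} (A : Matrix (Fin n) (Fin n) ℝ) (x : Fin n → ℝ) : ℝ := ∑ k, ∑ l, A k l * x k * x l

/-- Symmetric with positive values. -/
def PD {n : ℕ} (A : Matrix (Fin n) (Fin n) ℝ) : Prop :=
  (∀ i j, A i j = A j i) ∧ ∀ x, x ≠ 0 → 0 < qf A x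

lemma qf_eq {n : ℕ} (A : Matrix (Fin n) (Fin n) ℝ) (x : Fin n → ℝ) : qf A x = x ⬝ᵥ (A *ᵥ x) := by
  unfold qf
  simp only [dotProduct, mulVec, Finset.mul_sum]
  exact Finset.sum_congr rfl fun k _ => Finset.sum_congr rfl fun l _ => by ring

lemma pd_of {n : ℕ} {A : Matrix (Fin n) (Fin n) ℝ} (h : A.PosDef) : PD A := by
  refine ⟨fun i j => ?_, fun x hx => ?_⟩
  · have := h.isHermitian.apply i j
    simpa using this.symm
  · have := h.dotProduct_mulVec_pos hx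
    rw [qf_eq]
    simpa using this

lemma qf_smul {n : ℕ} (A : Matrix (Fin n) (Fin n) ℝ) (c : ℝ) (x : Fin n → ℝ) :
    qf A (c • x) = c ^ 2 * qf A x := by
  unfold qf
  rw [Finset.mul_sum]
  refine Finset.sum_congr rfl fun k _ => ?_
  rw [Finset.mul_sum]
  refine Finset.sum_congr rfl fun l _ => ?_
  simp only [Pi.smul_apply, smul_eq_mul]
  ring

lemma qf_cont {n : ℕ} (A : Matrix (Fin n) (Fin n) ℝ) : Continuous (qf A) := by
  unfold qf
  fun_prop

lemma lower {n : ℕ} {A : Matrix (Fin n) (Fin n) ℝ} (h : PD A) :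
    ∃ r : ℝ, 0 < r ∧ ∀ x : Fin n → ℤ, x ≠ 0 → r ≤ qf A (fun i => (x i : ℝ)) := by
  have key : ∃ r : ℝ, 0 < r ∧ ∀ u : Fin n → ℝ, ‖u‖ = 1 → r ≤ qf A u := by
    rcases (Metric.sphere (0 : Fin n → ℝ) 1).eq_empty_or_nonempty with he | hne
    · refine ⟨1, one_pos, fun u hu => ?_⟩
      exact absurd (he ▸ (by simpa using hu) : u ∈ (∅ : Set (Fin n → ℝ))) (Set.notMem_empty u)
    · obtain ⟨u₀, hu₀, hmin⟩ := (isCompact_sphere (0 : Fin n → ℝ) 1).exists_isMinOn hne
        (qf_cont A).continuousOn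
      have hn : ‖u₀‖ = 1 := by simpa using hu₀
      refine ⟨qf A u₀, h.2 u₀ (fun h0 => ?_), fun u hu => ?_⟩
      · rw [h0, norm_zero] at hn
        exact zero_ne_one hn
      · exact hmin (by simpa using hu)
  obtain ⟨r, hr, hu⟩ := key
  refine ⟨r, hr, fun x hx => ?_⟩
  obtain ⟨y, hy⟩ : ∃ y : Fin n → ℝ, y = fun i => (x i : ℝ) := ⟨_, rfl⟩
  rw [← hy]
  have hy1 : 1 ≤ ‖y‖ := by
    obtain ⟨i, hi⟩ := Function.ne_iff.mp hx
    have h1 : (1 : ℝ) ≤ |(x i : ℝ)| := by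
      have : (1 : ℤ) ≤ |x i| := Int.one_le_abs (by simpa using hi)
      exact_mod_cast this
    calc (1 : ℝ) ≤ |(x i : ℝ)| := h1
      _ = ‖y i‖ := by rw [hy, Real.norm_eq_abs]
      _ ≤ ‖y‖ := norm_le_pi_norm y i
  have hpos : 0 < ‖y‖ := lt_of_lt_of_le one_pos hy1
  have h2 := hu (‖y‖⁻¹ • y) (by rw [norm_smul, norm_inv, norm_norm, inv_mul_cancel₀ hpos.ne'])
  have h3 : qf A y = ‖y‖ ^ 2 * qf A (‖y‖⁻¹ • y) := by
    rw [qf_smul, inv_pow, ← mul_assoc, mul_inv_cancel₀ (by positivity), one_mul]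
  rw [h3]
  nlinarith [mul_le_mul_of_nonneg_left h2 (by positivity : (0 : ℝ) ≤ ‖y‖ ^ 2), one_le_pow₀ hy1 (n := 2)]

/-- The Schur complement. -/
noncomputable def sc {n : ℕ} (A : Matrix (Fin (n + 1)) (Fin (n + 1)) ℝ) : Matrix (Fin n) (Fin n) ℝ :=
  fun i j => A i.succ j.succ - A 0 i.succ * A 0 j.succ / A 0 0

lemma qf_cons {n : ℕ} (A : Matrix (Fin (n + 1)) (Fin (n + 1)) ℝ) (hs : ∀ i j, A i j = A j i)
    (h0 : A 0 0 ≠ 0) (c : ℝ) (y : Fin n → ℝ) :
    qf A (Fin.cons c y) = qf (sc A) y + A 0 0 * (c + (∑ i, A 0 i.succ * y i) / A 0 0) ^ 2 := by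
  obtain ⟨T, hT⟩ : ∃ T, T = ∑ i, A 0 i.succ * y i := ⟨_, rfl⟩
  rw [← hT]
  have e1 : qf (sc A) y = ∑ k, ∑ l, A k.succ l.succ * y k * y l - T ^ 2 / A 0 0 := by
    have : T ^ 2 / A 0 0 = ∑ k, ∑ l, A 0 k.succ * A 0 l.succ / A 0 0 * y k * y l := by
      rw [sq, hT, Finset.sum_mul_sum, Finset.sum_div]
      refine Finset.sum_congr rfl fun k _ => ?_
      rw [Finset.sum_div]
      refine Finset.sum_congr rfl fun l _ => ?_
      ring
    rw [this, ← Finset.sum_sub_distrib]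
    unfold qf sc
    refine Finset.sum_congr rfl fun k _ => ?_
    rw [← Finset.sum_sub_distrib]
    refine Finset.sum_congr rfl fun l _ => ?_
    ring
  have e2 : qf A (Fin.cons c y) = A 0 0 * c * c + T * c + (T * c +
      ∑ k, ∑ l, A k.succ l.succ * y k * y l) := by
    unfold qf
    rw [Fin.sum_univ_succ, Fin.sum_univ_succ]
    simp only [Fin.cons_zero, Fin.cons_succ]
    congr 1
    · congr 1
      rw [hT, Finset.sum_mul]
      exact Finset.sum_congr rfl fun l _ => by ring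
    · rw [hT, Finset.sum_mul, ← Finset.sum_add_distrib]
      refine Finset.sum_congr rfl fun k _ => ?_
      rw [Fin.sum_univ_succ]
      simp only [Fin.cons_zero, Fin.cons_succ]
      rw [hs k.succ 0]
  rw [e1, e2]
  field_simp
  ring

lemma det_sc {n : ℕ} (A : Matrix (Fin (n + 1)) (Fin (n + 1)) ℝ) (hs : ∀ i j, A i j = A j i)
    (h0 : A 0 0 ≠ 0) : A.det = A 0 0 * (sc A).det := by
  obtain ⟨B, hB⟩ : ∃ B : Matrix (Fin (n + 1)) (Fin (n + 1)) ℝ, B = fun i j =>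
    A i j + (Fin.cons 0 (fun k => - A 0 k.succ / A 0 0) : Fin (n + 1) → ℝ) i * A 0 j := ⟨_, rfl⟩
  have h1 : B.det = A.det := Matrix.det_eq_of_forall_row_eq_smul_add_const
    (Fin.cons 0 (fun k => - A 0 k.succ / A 0 0) : Fin (n + 1) → ℝ) 0 rfl (fun i j => by rw [hB])
  rw [← h1, Matrix.det_succ_column_zero, Fin.sum_univ_succ]
  have h2 : ∀ i : Fin n, B i.succ 0 = 0 := fun i => by
    rw [hB]
    simp only [Fin.cons_succ]
    rw [hs i.succ 0]
    field_simp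
    ring
  have h3 : B.submatrix (Fin.succAbove 0) Fin.succ = sc A := by
    ext i j
    rw [hB]
    simp only [Matrix.submatrix_apply, Fin.succAbove_zero, Fin.cons_succ, sc]
    ring
  have h4 : B 0 0 = A 0 0 := by
    rw [hB]
    simp
  simp only [h2, h3, h4]
  simp

/-- The matrix with the rows `(1, 0)`, `(c j, M j)`. -/
def ext1 {n : ℕ} (c : Fin n → ℤ) (M : Matrix (Fin n) (Fin n) ℤ) :
    Matrix (Fin (n + 1)) (Fin (n + 1)) ℤ :=
  Fin.cons (Fin.cons 1 0) (fun j => Fin.cons (c j) (M j))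

lemma det_ext1 {n : ℕ} (c : Fin n → ℤ) (M : Matrix (Fin n) (Fin n) ℤ) :
    (ext1 c M).det = M.det := by
  rw [Matrix.det_succ_row_zero, Fin.sum_univ_succ]
  have h3 : (ext1 c M).submatrix Fin.succ (Fin.succAbove 0) = M := by
    ext i j
    simp [ext1]
  simp only [h3]
  simp [ext1]

lemma step {n : ℕ} {c : ℝ} (hc : ∀ A : Matrix (Fin n) (Fin n) ℝ, PD A →
      ∃ M : Matrix (Fin n) (Fin n) ℤ, IsUnit M.det ∧
        ∏ j, qf A (fun k => (M j k : ℝ)) ≤ c * A.det)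
    (A : Matrix (Fin (n + 1)) (Fin (n + 1)) ℝ) (h : PD A)
    (hmin : ∀ M : Matrix (Fin (n + 1)) (Fin (n + 1)) ℤ, IsUnit M.det →
      ∀ j, A 0 0 ≤ 2 * qf A (fun k => (M j k : ℝ))) :
    ∃ M : Matrix (Fin (n + 1)) (Fin (n + 1)) ℤ, IsUnit M.det ∧
      ∏ j, qf A (fun k => (M j k : ℝ)) ≤ 2 ^ n * c * A.det := by
  have e0 : ∀ r : ℝ, qf A (Fin.cons r 0) = A 0 0 * r ^ 2 := fun r => by
    unfold qf
    rw [Fin.sum_univ_succ, Fin.sum_univ_succ]
    simp
    ring
  have hα : 0 < A 0 0 := by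
    have := h.2 (Fin.cons 1 0) (fun h0 => by simpa using congrFun h0 0)
    rw [e0] at this
    simpa using this
  have hpd : PD (sc A) := by
    refine ⟨fun i j => ?_, fun y hy => ?_⟩
    · unfold sc
      rw [h.1 i.succ j.succ]
      ring
    · have h1 := qf_cons A h.1 hα.ne' (-((∑ i, A 0 i.succ * y i) / A 0 0)) y
      have h2 := h.2 (Fin.cons (-((∑ i, A 0 i.succ * y i) / A 0 0)) y) (fun h0 => hy (by
        ext i
        simpa using congrFun h0 i.succ))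
      rw [h1] at h2
      simpa using h2
  obtain ⟨M, hM, hprod⟩ := hc (sc A) hpd
  obtain ⟨t, ht⟩ : ∃ t : Fin n → ℝ, t = fun j => (∑ i, A 0 i.succ * (M j i : ℝ)) / A 0 0 :=
    ⟨_, rfl⟩
  refine ⟨ext1 (fun j => - round (t j)) M, by rwa [det_ext1], ?_⟩
  have hU : IsUnit (ext1 (fun j => - round (t j)) M).det := by rwa [det_ext1]
  have r0 : (fun k => ((ext1 (fun j => - round (t j)) M 0 k : ℤ) : ℝ)) = Fin.cons 1 0 := by
    ext k
    refine Fin.cases ?_ (fun k => ?_) k <;> simp [ext1]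
  have r1 : ∀ j : Fin n, (fun k => ((ext1 (fun j => - round (t j)) M j.succ k : ℤ) : ℝ)) =
      Fin.cons (-(round (t j) : ℝ)) (fun k => (M j k : ℝ)) := fun j => by
    ext k
    refine Fin.cases ?_ (fun k => ?_) k <;> simp [ext1]
  have hj : ∀ j : Fin n, 0 ≤ qf A (fun k => ((ext1 (fun j => - round (t j)) M j.succ k : ℤ) : ℝ)) ∧
      qf A (fun k => ((ext1 (fun j => - round (t j)) M j.succ k : ℤ) : ℝ)) ≤
        2 * qf (sc A) (fun k => (M j k : ℝ)) := fun j => by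
    have h1 := hmin _ hU j.succ
    have h2 := qf_cons A h.1 hα.ne' (-(round (t j) : ℝ)) (fun k => (M j k : ℝ))
    rw [r1] at h1 ⊢
    have h3 : (∑ i, A 0 i.succ * (M j i : ℝ)) / A 0 0 = t j := by rw [ht]
    rw [h3] at h2
    have h4 : (-(round (t j) : ℝ) + t j) ^ 2 ≤ 1 / 4 := by
      have h5 := abs_le.mp (abs_sub_round (t j))
      nlinarith [h5.1, h5.2]
    have h6 := mul_le_mul_of_nonneg_left h4 hα.le
    constructor <;> linarith
  rw [Fin.prod_univ_succ, r0, e0, det_sc A h.1 hα.ne']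
  calc A 0 0 * 1 ^ 2 * ∏ j : Fin n, qf A (fun k => ((ext1 (fun j => - round (t j)) M j.succ k : ℤ) : ℝ))
      ≤ A 0 0 * 1 ^ 2 * ∏ j : Fin n, (2 * qf (sc A) (fun k => (M j k : ℝ))) := by
        refine mul_le_mul_of_nonneg_left ?_ (by positivity)
        exact Finset.prod_le_prod (fun j _ => (hj j).1) (fun j _ => (hj j).2)
    _ = A 0 0 * 2 ^ n * ∏ j : Fin n, qf (sc A) (fun k => (M j k : ℝ)) := by
        rw [Finset.prod_mul_distrib]
        simp
        ring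
    _ ≤ A 0 0 * 2 ^ n * (c * (sc A).det) := mul_le_mul_of_nonneg_left hprod (by positivity)
    _ = 2 ^ n * c * (A 0 0 * (sc A).det) := by ring

/-- Change of the basis. -/
lemma qf_conj {n : ℕ} (A B : Matrix (Fin n) (Fin n) ℝ) (x : Fin n → ℝ) :
    qf (B * A * Bᵀ) x = qf A (x ᵥ* B) := by
  rw [qf_eq, qf_eq, ← Matrix.mulVec_mulVec, ← Matrix.mulVec_mulVec, Matrix.dotProduct_mulVec,
    Matrix.mulVec_transpose]

lemma main (n : ℕ) : ∃ c : ℝ, 1 ≤ c ∧ ∀ A : Matrix (Fin n) (Fin n) ℝ, PD A →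
    ∃ M : Matrix (Fin n) (Fin n) ℤ, IsUnit M.det ∧
      ∏ j, qf A (fun k => (M j k : ℝ)) ≤ c * A.det := by
  induction n with
  | zero => exact ⟨1, le_rfl, fun A _ => ⟨1, by simp, by simp⟩⟩
  | succ n ih =>
    obtain ⟨c, hc1, hc⟩ := ih
    refine ⟨2 ^ n * c, ?_, fun A hA => ?_⟩
    · have : (1 : ℝ) ≤ 2 ^ n := one_le_pow₀ one_le_two
      nlinarith
    obtain ⟨r, hr, hlow⟩ := lower hA
    have hrow : ∀ M : Matrix (Fin (n + 1)) (Fin (n + 1)) ℤ, IsUnit M.det → ∀ j, M j ≠ 0 :=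
      fun M hM j h0 => hM.ne_zero (Matrix.det_eq_zero_of_row_eq_zero j (fun k => congrFun h0 k))
    obtain ⟨S, hS⟩ : ∃ S : Set ℝ, S = {a | ∃ M : Matrix (Fin (n + 1)) (Fin (n + 1)) ℤ,
      IsUnit M.det ∧ ∃ j, qf A (fun k => (M j k : ℝ)) = a} := ⟨_, rfl⟩
    have hne : S.Nonempty := by
      rw [hS]
      exact ⟨_, 1, by simp, 0, rfl⟩
    have hbd : BddBelow S := ⟨r, fun a ha => by
      rw [hS] at ha
      obtain ⟨M, hM, j, rfl⟩ := ha
      exact hlow _ (hrow M hM j)⟩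
    have hge : r ≤ sInf S := le_csInf hne (fun a ha => by
      rw [hS] at ha
      obtain ⟨M, hM, j, rfl⟩ := ha
      exact hlow _ (hrow M hM j))
    obtain ⟨a, haS, ha2⟩ := exists_lt_of_csInf_lt hne (show sInf S < 2 * sInf S by linarith)
    have haS' := haS
    rw [hS] at haS'
    obtain ⟨M₁, hM₁, j₁, hj₁⟩ := haS'
    -- the row `j₁` becomes the row `0`
    obtain ⟨M₀, hM₀⟩ : ∃ M₀ : Matrix (Fin (n + 1)) (Fin (n + 1)) ℤ,
      M₀ = M₁.submatrix (Equiv.swap 0 j₁) id := ⟨_, rfl⟩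
    have hdet₀ : IsUnit M₀.det := by
      rw [hM₀, Matrix.det_permute]
      exact (Units.isUnit _ |>.map (Int.castRingHom ℤ)).mul hM₁
    have h00 : qf A (fun k => (M₀ 0 k : ℝ)) = a := by
      rw [hM₀, ← hj₁]
      simp
    obtain ⟨R, hR⟩ : ∃ R : Matrix (Fin (n + 1)) (Fin (n + 1)) ℝ, R = M₀.map (Int.cast : ℤ → ℝ) :=
      ⟨_, rfl⟩
    have hRdet : R.det ^ 2 = 1 := by
      have h1 : R.det = ((M₀.det : ℤ) : ℝ) := by
        rw [hR]
        exact (Int.cast_det M₀).symm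
      rw [h1]
      rcases Int.isUnit_iff.mp hdet₀ with h2 | h2 <;> rw [h2] <;> simp
    obtain ⟨A', hA'⟩ : ∃ A' : Matrix (Fin (n + 1)) (Fin (n + 1)) ℝ, A' = R * A * Rᵀ := ⟨_, rfl⟩
    have hval : ∀ x : Fin (n + 1) → ℝ, qf A' x = qf A (x ᵥ* R) := fun x => by
      rw [hA', qf_conj]
    have hdetA : A'.det = A.det := by
      rw [hA', Matrix.det_mul, Matrix.det_mul, Matrix.det_transpose]
      linear_combination A.det * hRdet
    have hMM : ∀ (M : Matrix (Fin (n + 1)) (Fin (n + 1)) ℤ) (j : Fin (n + 1)),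
        (fun k => (M j k : ℝ)) ᵥ* R = fun k => ((M * M₀) j k : ℝ) := fun M j => by
      ext k
      rw [hR]
      simp [Matrix.vecMul, dotProduct, Matrix.mul_apply]
    have hpd : PD A' := by
      refine ⟨fun i j => ?_, fun x hx => ?_⟩
      · have hAT : Aᵀ = A := by
          ext i j
          exact hA.1 j i
        have : A'ᵀ = A' := by
          rw [hA', Matrix.transpose_mul, Matrix.transpose_mul, Matrix.transpose_transpose, hAT,
            Matrix.mul_assoc]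
        exact congrFun (congrFun this j) i |>.symm ▸ rfl
      · rw [hval]
        refine hA.2 _ fun h0 => hx ?_
        have hRu : IsUnit R := by
          rw [Matrix.isUnit_iff_isUnit_det]
          exact isUnit_iff_ne_zero.mpr fun h1 => by
            rw [h1] at hRdet
            norm_num at hRdet
        exact Matrix.vecMul_injective_of_isUnit hRu (by
          show x ᵥ* R = 0 ᵥ* R
          rw [h0, Matrix.zero_vecMul])
    have hα : A' 0 0 = a := by
      have e0 : qf A' (fun k => ((1 : Matrix (Fin (n + 1)) (Fin (n + 1)) ℤ) 0 k : ℝ)) = A' 0 0 := by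
        unfold qf
        simp [Matrix.one_apply]
      rw [← e0, hval, hMM, Matrix.one_mul, h00]
    obtain ⟨M, hM, hle⟩ := step hc A' hpd (fun M hM j => by
      rw [hα, hval, hMM]
      have h1 : sInf S ≤ qf A (fun k => ((M * M₀) j k : ℝ)) := csInf_le hbd (by
        rw [hS]
        exact ⟨M * M₀, by rw [Matrix.det_mul]; exact hM.mul hdet₀, j, rfl⟩)
      linarith)
    refine ⟨M * M₀, by rw [Matrix.det_mul]; exact hM.mul hdet₀, ?_⟩
    rw [hdetA] at hle
    refine le_trans (le_of_eq (Finset.prod_congr rfl fun j _ => ?_)) hle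
    rw [hval, hMM]

theorem gHERM : Pool.Agent.Helper5.UN.G_HERM := by
  intro n
  obtain ⟨c, hc1, hc⟩ := main n
  refine ⟨c, hc1, fun A hA => ?_⟩
  obtain ⟨M, hM, hle⟩ := hc A (pd_of hA)
  exact ⟨M, Matrix.linearIndependent_rows_of_det_ne_zero hM.ne_zero, hle⟩

end Pool.Agent.Helper65.UN
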