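import Pool.Agent.Helper79.UN.NGoals
import Pool.Agent.Helper79.UN.Lib

/-! Packet BAS: Borel sets over the sequence `A`. -/

noncomputable section

namespace UN.PkBAS

open Pool.Agent.Helper97.Ku NU UL UN

variable {L : Type} [CompleteBooleanAlgebra L]

/-- The value of: the sections of `A` are in `S`. -/
def gen (K A S : BSet L) : L :=
  ⨅ n : BSet L, (n.mem omN ⇨ ⨆ Z : BSet L, (Z.mem S ⊓ isSecV K A n Z))

theorem isBorV_def (K A Y : BSet L) : isBorV omN K A Y =
    subV Y K ⊓ ⨅ S : BSet L, (isSigV omN K S ⇨ (gen K A S ⇨ Y.mem S)) := rfl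

theorem subV_self (K : BSet L) : subV K K = ⊤ := by
  unfold subV
  simp only [himp_self, iInf_top]

theorem iffV_self (a : L) : iffV a a = ⊤ := by
  unfold iffV
  simp only [himp_self, inf_top_eq]

theorem nn_mem (n : ℕ) : (nn n : BSet L).mem omN = ⊤ := by
  rw [eq_top_iff, (Lib.nat L).2.1]
  refine le_trans ?_ (le_iSup _ n)
  rw [BSet.eq_refl]

theorem bas_pf (cmp_ : U_CMP) (ex1 : U_EX1) (ex2 : U_EX2) (sg : U_SG) : U_BAS := by
  intro L _ K A
  have hExt : ∀ n : ℕ, BSet.Ext (fun x : BSet L => rl A x n) :=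
    (ex2 L Empty (fun e => e.elim) K A).1
  set C : ℕ → BSet L := fun n => cmp K fun x => rl A x n with hC
  have hCmem : ∀ (n : ℕ) (x : BSet L), x.mem (C n) = x.mem K ⊓ apV A (nn n) x := by
    intro n x
    exact (cmp_ L K).1 _ (hExt n) x
  have hCsub : ∀ n, subV (C n) K = ⊤ := by
    intro n
    unfold subV
    rw [eq_top_iff]
    refine le_iInf fun t => ?_
    rw [le_himp_iff, top_inf_eq, hCmem]
    exact inf_le_left
  have hCsec : ∀ n, isSecV K A (nn n) (C n) = ⊤ := by
    intro n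
    unfold isSecV
    rw [eq_top_iff]
    refine le_iInf fun x => ?_
    rw [hCmem, iffV_self]
  have hgen : ∀ (n : ℕ) (S : BSet L), gen K A S ≤ (C n).mem S := by
    intro n S
    unfold gen
    refine le_trans (iInf_le _ (nn n)) ?_
    rw [nn_mem, top_himp]
    refine iSup_le fun Z => ?_
    refine le_trans ?_ (BSet.mem_congr_left Z (C n) S)
    rw [inf_comm]
    refine inf_le_inf_right _ ?_
    refine le_trans ?_ (BSet.ext_le Z (C n))
    unfold isSecV
    refine iInf_mono fun x => ?_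
    rw [hCmem]
    exact le_rfl
  refine ⟨?_, ?_, ?_⟩
  · rw [isBorV_def, subV_self, top_inf_eq, eq_top_iff]
    refine le_iInf fun S => ?_
    rw [le_himp_iff, top_inf_eq, le_himp_iff]
    exact le_trans inf_le_left (sg L K S).1
  · intro n
    show isBorV omN K A (C n) = ⊤
    rw [isBorV_def, hCsub, top_inf_eq, eq_top_iff]
    refine le_iInf fun S => ?_
    rw [le_himp_iff, top_inf_eq, le_himp_iff]
    exact le_trans inf_le_right (hgen n S)
  · intro ψ b hψ hb hbn Y
    have hmem : ∀ Z : BSet L, Z.mem (pw K ψ) = subV Z K ⊓ ψ Z := (cmp_ L K).2 ψ hψ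
    have h1 : b ≤ gen K A (pw K ψ) := by
      unfold gen
      refine le_iInf fun u => ?_
      rw [le_himp_iff, (Lib.nat L).2.1, inf_iSup_eq]
      refine iSup_le fun n => ?_
      have hχ : BSet.Ext (fun u : BSet L => ⨆ Z : BSet L, (Z.mem (pw K ψ) ⊓ isSecV K A u Z)) :=
        BSet.Ext.iSup fun Z => BSet.Ext.inf (BSet.Ext.const _) (((ex1 L omN K A).1 A Z).1)
      refine le_trans ?_ (hχ (nn n) u)
      rw [BSet.eq_comm' (nn n) u, inf_comm]
      refine inf_le_inf_left _ ?_
      refine le_trans ?_ (le_iSup _ (C n))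
      rw [hCsec, inf_top_eq, hmem, hCsub, top_inf_eq]
      exact hbn n
    have h2 : b ⊓ isBorV omN K A Y ≤ Y.mem (pw K ψ) := by
      rw [isBorV_def]
      have h3 : subV Y K ⊓ ⨅ S : BSet L, (isSigV omN K S ⇨ (gen K A S ⇨ Y.mem S)) ≤
          (isSigV omN K (pw K ψ) ⇨ (gen K A (pw K ψ) ⇨ Y.mem (pw K ψ))) :=
        le_trans inf_le_right (iInf_le _ _)
      have h4 : b ⊓ (subV Y K ⊓ ⨅ S : BSet L, (isSigV omN K S ⇨ (gen K A S ⇨ Y.mem S))) ≤
          (gen K A (pw K ψ) ⇨ Y.mem (pw K ψ)) := by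
        refine le_trans (inf_le_inf hb h3) ?_
        exact inf_himp_le
      refine le_trans (le_inf (le_trans inf_le_left h1) h4) ?_
      exact inf_himp_le
    refine le_trans h2 ?_
    rw [hmem]
    exact inf_le_right

end UN.PkBAS
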